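import Mathlib

/-!
Products `∏ (1 + c i t)` and the value of their second derivative: a smoothing argument.
-/

set_option autoImplicit false
set_option linter.unusedSectionVars false

namespace Pool.Agent.H114.Tur

open Finset Polynomial

variable {ι : Type} [DecidableEq ι]

/-- `∏ (1 + c i X)` -/
noncomputable def f (c : ι → ℝ) (s : Finset ι) : ℝ[X] := ∏ i ∈ s, (1 + C (c i) * X)

lemma f_insert (c : ι → ℝ) {s : Finset ι} {a : ι} (ha : a ∉ s) :
    f c (insert a s) = (1 + C (c a) * X) * f c s := by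
  unfold f; rw [prod_insert ha]

lemma d_lin (a : ℝ) (g : ℝ[X]) : derivative ((1 + C a * X) * g) =
    C a * g + (1 + C a * X) * derivative g := by
  rw [derivative_mul]
  simp

lemma d2_lin (a : ℝ) (g : ℝ[X]) : derivative (derivative ((1 + C a * X) * g)) =
    2 * C a * derivative g + (1 + C a * X) * derivative (derivative g) := by
  rw [d_lin, derivative_add, d_lin, derivative_C_mul]
  ring

/-- continuity in the parameters -/
lemma cont (τ : ℝ) (s : Finset ι) : Continuous (fun c : ι → ℝ => (f c s).eval τ) ∧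
    Continuous (fun c : ι → ℝ => (derivative (f c s)).eval τ) ∧
    Continuous (fun c : ι → ℝ => (derivative (derivative (f c s))).eval τ) := by
  induction s using Finset.induction with
  | empty => simp [f, continuous_const]
  | insert a s ha ih =>
    obtain ⟨h0, h1, h2⟩ := ih
    have hc : Continuous (fun c : ι → ℝ => c a) := continuous_apply a
    have e0 : (fun c : ι → ℝ => (f c (insert a s)).eval τ) =
        fun c => (1 + c a * τ) * (f c s).eval τ := by
      funext c; rw [f_insert _ ha]; simp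
    have e1 : (fun c : ι → ℝ => (derivative (f c (insert a s))).eval τ) =
        fun c => c a * (f c s).eval τ + (1 + c a * τ) * (derivative (f c s)).eval τ := by
      funext c; rw [f_insert _ ha, d_lin]; simp
    have e2 : (fun c : ι → ℝ => (derivative (derivative (f c (insert a s)))).eval τ) =
        fun c => 2 * c a * (derivative (f c s)).eval τ +
          (1 + c a * τ) * (derivative (derivative (f c s))).eval τ := by
      funext c; rw [f_insert _ ha, d2_lin]; simp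
    rw [e0, e1, e2]
    refine ⟨by fun_prop, by fun_prop, by fun_prop⟩

/-- scaling -/
lemma f_scale (lam : ℝ) (c : ι → ℝ) (s : Finset ι) :
    f (fun i => lam * c i) s = (f c s).comp (C lam * X) := by
  unfold f
  rw [Polynomial.prod_comp]
  refine prod_congr rfl fun i _ => ?_
  simp
  ring

lemma f2_scale (lam : ℝ) (c : ι → ℝ) (s : Finset ι) (t : ℝ) :
    (derivative (derivative (f (fun i => lam * c i) s))).eval t =
      lam ^ 2 * (derivative (derivative (f c s))).eval (lam * t) := by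
  rw [f_scale, derivative_comp, derivative_mul, derivative_comp]
  simp
  ring

/-- logarithmic derivatives -/
lemma logd (τ : ℝ) (c : ι → ℝ) (s : Finset ι) (h : ∀ i ∈ s, 1 + c i * τ ≠ 0) :
    (derivative (f c s)).eval τ = (f c s).eval τ * ∑ i ∈ s, c i / (1 + c i * τ) ∧
    (derivative (derivative (f c s))).eval τ = (f c s).eval τ *
      ((∑ i ∈ s, c i / (1 + c i * τ)) ^ 2 - ∑ i ∈ s, (c i / (1 + c i * τ)) ^ 2) := by
  induction s using Finset.induction with
  | empty => simp [f]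
  | insert a s ha ih =>
    obtain ⟨h1, h2⟩ := ih fun i hi => h i (mem_insert_of_mem hi)
    have hne := h a (mem_insert_self a s)
    rw [f_insert _ ha, d2_lin, d_lin, sum_insert ha, sum_insert ha]
    simp only [eval_mul, eval_add, eval_one, eval_C, eval_X, eval_ofNat]
    rw [h1, h2]
    set A := ∑ i ∈ s, c i / (1 + c i * τ)
    set B := ∑ i ∈ s, (c i / (1 + c i * τ)) ^ 2
    have hu : (1 + c a * τ) * (c a / (1 + c a * τ)) = c a := mul_div_cancel₀ _ hne
    set u := c a / (1 + c a * τ)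
    constructor
    · linear_combination (-(f c s).eval τ) * hu
    · linear_combination (-(2 * (f c s).eval τ * A)) * hu

lemma f_eval (τ : ℝ) (c : ι → ℝ) (s : Finset ι) :
    (f c s).eval τ = ∏ i ∈ s, (1 + c i * τ) := by
  unfold f
  rw [eval_prod]
  refine prod_congr rfl fun i _ => ?_
  simp

variable [Fintype ι]

lemma split2 {i j : ι} (hij : i ≠ j) {T : Finset ι} (hi : i ∈ T) (hj : j ∈ T) :
    T = insert i (insert j ((T.erase i).erase j)) := by
  rw [insert_erase (mem_erase.2 ⟨hij.symm, hj⟩), insert_erase hi]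

/-- averaging two parameters -/
noncomputable def avg (c : ι → ℝ) (i j : ι) : ι → ℝ :=
  fun k => if k = i ∨ k = j then (c i + c j) / 2 else c k

lemma sum_avg {i j : ι} (hij : i ≠ j) {T : Finset ι} (hi : i ∈ T) (hj : j ∈ T) (F : ℝ → ℝ)
    (c : ι → ℝ) : ∑ k ∈ T, F (avg c i j k) =
      ∑ k ∈ T, F (c k) + 2 * F ((c i + c j) / 2) - F (c i) - F (c j) := by
  rw [split2 hij hi hj, sum_insert (by simp [hij]), sum_insert (by simp), sum_insert (by simp [hij]),
    sum_insert (by simp)]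
  have h1 : ∑ k ∈ (T.erase i).erase j, F (avg c i j k) = ∑ k ∈ (T.erase i).erase j, F (c k) := by
    refine sum_congr rfl fun k hk => ?_
    rw [mem_erase, mem_erase] at hk
    simp [avg, hk.1, hk.2.1]
  rw [h1]
  simp only [avg, true_or, or_true, if_true]
  ring

lemma sum_avg_of_notMem {i j : ι} {T : Finset ι} (hi : i ∉ T) (hj : j ∉ T) (F : ℝ → ℝ)
    (c : ι → ℝ) : ∑ k ∈ T, F (avg c i j k) = ∑ k ∈ T, F (c k) := by
  refine sum_congr rfl fun k hk => ?_
  have h1 : k ≠ i := fun h => hi (h ▸ hk)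
  have h2 : k ≠ j := fun h => hj (h ▸ hk)
  simp [avg, h1, h2]

/-- the effect of averaging -/
lemma avg_lt {τ : ℝ} {c : ι → ℝ} {i j : ι} (hij : i ≠ j) (hne : c i ≠ c j)
    (h0 : ∑ k, c k = 0) (h2 : τ ^ 2 * ∑ k, c k ^ 2 ≤ 3 / 100) :
    (derivative (derivative (f c univ))).eval τ <
      (derivative (derivative (f (avg c i j) univ))).eval τ := by
  set s : Finset ι := (univ.erase i).erase j with hs
  have hsp : (univ : Finset ι) = insert i (insert j s) := split2 hij (mem_univ i) (mem_univ j)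
  have hjs : j ∉ s := by simp [hs]
  have hijs : i ∉ insert j s := by simp [hs, hij]
  -- the numbers `y k = c k τ`
  have hy2 : ∑ k, (c k * τ) ^ 2 ≤ 3 / 100 := by
    refine le_trans (le_of_eq ?_) h2
    rw [mul_sum]
    exact sum_congr rfl fun k _ => by ring
  have hy0 : ∑ k, c k * τ = 0 := by rw [← sum_mul, h0, zero_mul]
  have hyk : ∀ k, -(18 / 100) ≤ c k * τ := by
    intro k
    have h3 : (c k * τ) ^ 2 ≤ ∑ k, (c k * τ) ^ 2 :=
      single_le_sum (f := fun k => (c k * τ) ^ 2) (fun k _ => sq_nonneg _) (mem_univ k)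
    nlinarith
  have hpos : ∀ k, 82 / 100 ≤ 1 + c k * τ := fun k => by linarith [hyk k]
  set g := f c s with hg
  have hgpos : 0 < g.eval τ := by
    rw [hg, f_eval]
    exact prod_pos fun k _ => by linarith [hpos k]
  obtain ⟨l1, l2⟩ := logd τ c s fun k _ => by linarith [hpos k]
  have e1 : f c univ = (1 + C (c i) * X) * ((1 + C (c j) * X) * g) := by
    rw [hsp, f_insert _ hijs, f_insert _ hjs]
  have e2 : f (avg c i j) univ = (1 + C ((c i + c j) / 2) * X) *
      ((1 + C ((c i + c j) / 2) * X) * g) := by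
    rw [hsp, f_insert _ hijs, f_insert _ hjs]
    have h3 : f (avg c i j) s = g := by
      unfold f at hg ⊢
      rw [hg]
      refine prod_congr rfl fun k hk => ?_
      rw [hs, mem_erase, mem_erase] at hk
      simp [avg, hk.1, hk.2.1]
    rw [h3]
    simp [avg]
  rw [e1, e2, d2_lin, d2_lin, d_lin, d2_lin, d2_lin, d_lin]
  simp only [eval_mul, eval_add, eval_one, eval_C, eval_X, eval_ofNat]
  rw [l1, l2]
  set A := ∑ k ∈ s, c k / (1 + c k * τ) with hA
  set B := ∑ k ∈ s, (c k / (1 + c k * τ)) ^ 2 with hB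
  -- bounds
  have hsum : (c i * τ) ^ 2 + (c j * τ) ^ 2 + ∑ k ∈ s, (c k * τ) ^ 2 ≤ 3 / 100 := by
    refine le_trans (le_of_eq ?_) hy2
    rw [hsp, sum_insert hijs, sum_insert hjs]; ring
  have hsn : 0 ≤ ∑ k ∈ s, (c k * τ) ^ 2 := sum_nonneg fun k _ => sq_nonneg _
  have hsum0 : c i * τ + c j * τ + ∑ k ∈ s, c k * τ = 0 := by
    rw [← hy0, hsp, sum_insert hijs, sum_insert hjs]; ring
  have hB1 : τ ^ 2 * B ≤ 5 / 100 := by
    have h4 : τ ^ 2 * B ≤ (100 / 82) ^ 2 * ∑ k ∈ s, (c k * τ) ^ 2 := by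
      rw [hB, mul_sum, mul_sum]
      refine sum_le_sum fun k _ => ?_
      have h5 : 0 < 1 + c k * τ := by linarith [hpos k]
      rw [show τ ^ 2 * (c k / (1 + c k * τ)) ^ 2 = (c k * τ) ^ 2 / (1 + c k * τ) ^ 2 by
        field_simp, div_le_iff₀ (by positivity)]
      have h6 : (82 / 100 : ℝ) ^ 2 ≤ (1 + c k * τ) ^ 2 :=
        pow_le_pow_left₀ (by norm_num) (hpos k) 2
      nlinarith [sq_nonneg (c k * τ)]
    nlinarith
  have hA1 : -(3 / 10) ≤ τ * A := by
    have h4 : ∑ k ∈ s, (c k * τ - (100 / 82) * (c k * τ) ^ 2) ≤ τ * A := by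
      rw [hA, mul_sum]
      refine sum_le_sum fun k _ => ?_
      have h5 : 0 < 1 + c k * τ := by linarith [hpos k]
      rw [show τ * (c k / (1 + c k * τ)) = (c k * τ) / (1 + c k * τ) by ring, le_div_iff₀ h5]
      nlinarith [sq_nonneg (c k * τ), mul_nonneg (sq_nonneg (c k * τ))
        (sub_nonneg.2 (hpos k))]
    rw [sum_sub_distrib, ← mul_sum] at h4
    have h5 : (c i * τ + c j * τ) ^ 2 ≤ 6 / 100 := by nlinarith [sq_nonneg (c i * τ - c j * τ)]
    have h6 : c i * τ + c j * τ ≤ 25 / 100 := by nlinarith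
    linarith [sq_nonneg (c i * τ), sq_nonneg (c j * τ)]
  have hkey : 0 < (2 + τ * A) ^ 2 - 2 - τ ^ 2 * B := by nlinarith
  have hq : 0 < (c i - c j) ^ 2 := by
    have : c i - c j ≠ 0 := sub_ne_zero.2 hne
    positivity
  have hfin : 0 < (c i - c j) ^ 2 / 4 * (g.eval τ * ((2 + τ * A) ^ 2 - 2 - τ ^ 2 * B)) := by
    positivity
  linarith [hfin, show (2 * ((c i + c j) / 2) * ((c i + c j) / 2 * g.eval τ +
      (1 + (c i + c j) / 2 * τ) * (g.eval τ * A)) + (1 + (c i + c j) / 2 * τ) *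
      (2 * ((c i + c j) / 2) * (g.eval τ * A) + (1 + (c i + c j) / 2 * τ) *
      (g.eval τ * (A ^ 2 - B)))) - (2 * c i * (c j * g.eval τ + (1 + c j * τ) * (g.eval τ * A)) +
      (1 + c i * τ) * (2 * c j * (g.eval τ * A) + (1 + c j * τ) * (g.eval τ * (A ^ 2 - B)))) =
      (c i - c j) ^ 2 / 4 * (g.eval τ * ((2 + τ * A) ^ 2 - 2 - τ ^ 2 * B)) by ring]

/-- the admissible parameters -/
def Adm (L : Finset ι) (σ Mb : ℝ) : Set (ι → ℝ) :=
  {c | (∀ i ∈ L, 0 ≤ c i) ∧ (∀ i ∈ Lᶜ, c i ≤ 0) ∧ ∑ i ∈ L, c i = σ ∧ ∑ i ∈ Lᶜ, c i = -σ ∧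
    ∑ i, c i ^ 2 ≤ Mb}

lemma adm_compact (L : Finset ι) (σ Mb : ℝ) : IsCompact (Adm L σ Mb) := by
  refine IsCompact.of_isClosed_subset (isCompact_univ_pi (X := fun _ : ι => ℝ)
    (s := fun _ => Set.Icc (-(1 + Mb)) (1 + Mb)) fun _ => isCompact_Icc) ?_ ?_
  · have h1 : IsClosed {c : ι → ℝ | ∀ i ∈ L, 0 ≤ c i} := by
      have : {c : ι → ℝ | ∀ i ∈ L, 0 ≤ c i} = ⋂ i ∈ L, {c : ι → ℝ | 0 ≤ c i} := by
        ext c; simp
      rw [this]
      exact isClosed_biInter fun i _ => isClosed_le continuous_const (continuous_apply i)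
    have h2 : IsClosed {c : ι → ℝ | ∀ i ∈ Lᶜ, c i ≤ 0} := by
      have : {c : ι → ℝ | ∀ i ∈ Lᶜ, c i ≤ 0} = ⋂ i ∈ Lᶜ, {c : ι → ℝ | c i ≤ 0} := by
        ext c; simp
      rw [this]
      exact isClosed_biInter fun i _ => isClosed_le (continuous_apply i) continuous_const
    have h3 : IsClosed {c : ι → ℝ | ∑ i ∈ L, c i = σ} :=
      isClosed_eq (by fun_prop) continuous_const
    have h4 : IsClosed {c : ι → ℝ | ∑ i ∈ Lᶜ, c i = -σ} :=
      isClosed_eq (by fun_prop) continuous_const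
    have h5 : IsClosed {c : ι → ℝ | ∑ i, c i ^ 2 ≤ Mb} :=
      isClosed_le (by fun_prop) continuous_const
    exact h1.inter (h2.inter (h3.inter (h4.inter h5)))
  · rintro c ⟨-, -, -, -, h⟩ i -
    have h3 : c i ^ 2 ≤ ∑ k, c k ^ 2 :=
      single_le_sum (f := fun k => c k ^ 2) (fun k _ => sq_nonneg _) (mem_univ i)
    have h4 : 0 ≤ Mb := le_trans (sq_nonneg _) (h3.trans h)
    constructor <;> nlinarith

/-- the constant parameters -/
noncomputable def cst (L : Finset ι) (σ : ℝ) : ι → ℝ :=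
  fun i => if i ∈ L then σ / (L.card : ℝ) else -σ / ((Lᶜ).card : ℝ)

/-- the second derivative at `τ` -/
noncomputable def Phi (τ : ℝ) (c : ι → ℝ) : ℝ := (derivative (derivative (f c univ))).eval τ

lemma avg_mem {L : Finset ι} {σ Mb : ℝ} {c : ι → ℝ} (hc : c ∈ Adm L σ Mb) {i j : ι} (hij : i ≠ j)
    (h : (i ∈ L ∧ j ∈ L) ∨ (i ∈ Lᶜ ∧ j ∈ Lᶜ)) : avg c i j ∈ Adm L σ Mb := by
  obtain ⟨h1, h2, h3, h4, h5⟩ := hc
  have hsq : ∑ k, avg c i j k ^ 2 ≤ Mb := by
    rw [sum_avg hij (mem_univ i) (mem_univ j) (fun x => x ^ 2) c]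
    nlinarith [sq_nonneg (c i - c j)]
  rcases h with ⟨hi, hj⟩ | ⟨hi, hj⟩
  · refine ⟨fun k hk => ?_, fun k hk => ?_, ?_, ?_, hsq⟩
    · unfold avg
      split_ifs
      · linarith [h1 i hi, h1 j hj]
      · exact h1 k hk
    · unfold avg
      have h6 : ¬ (k = i ∨ k = j) := by
        rw [mem_compl] at hk
        rintro (rfl | rfl)
        · exact hk hi
        · exact hk hj
      rw [if_neg h6]
      exact h2 k hk
    · have := sum_avg hij hi hj (fun x => x) c
      rw [this, h3]; ring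
    · have := sum_avg_of_notMem (T := Lᶜ) (i := i) (j := j) (by simpa using hi) (by simpa using hj)
        (fun x => x) c
      rw [this, h4]
  · refine ⟨fun k hk => ?_, fun k hk => ?_, ?_, ?_, hsq⟩
    · unfold avg
      have h6 : ¬ (k = i ∨ k = j) := by
        rw [mem_compl] at hi hj
        rintro (rfl | rfl)
        · exact hi hk
        · exact hj hk
      rw [if_neg h6]
      exact h1 k hk
    · unfold avg
      split_ifs
      · linarith [h2 i hi, h2 j hj]
      · exact h2 k hk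
    · have := sum_avg_of_notMem (T := L) (i := i) (j := j) (by simpa using hi) (by simpa using hj)
        (fun x => x) c
      rw [this, h3]
    · have := sum_avg hij hi hj (fun x => x) c
      rw [this, h4]; ring

/-- a maximiser has constant parameters -/
lemma max_eq {L : Finset ι} {σ Mb τ : ℝ} (hτ : τ ^ 2 * Mb ≤ 3 / 100) (hL : L.Nonempty)
    (hR : (Lᶜ).Nonempty) {c : ι → ℝ} (hc : c ∈ Adm L σ Mb)
    (hmax : ∀ c' ∈ Adm L σ Mb, Phi τ c' ≤ Phi τ c) : c = cst L σ := by
  have h0 : ∑ k, c k = 0 := by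
    rw [← sum_add_sum_compl L, hc.2.2.1, hc.2.2.2.1]; ring
  have h2 : τ ^ 2 * ∑ k, c k ^ 2 ≤ 3 / 100 :=
    le_trans (mul_le_mul_of_nonneg_left hc.2.2.2.2 (sq_nonneg _)) hτ
  have key : ∀ i j, ((i ∈ L ∧ j ∈ L) ∨ (i ∈ Lᶜ ∧ j ∈ Lᶜ)) → c i = c j := by
    intro i j hij
    by_contra hne
    have hne' : i ≠ j := fun h => hne (h ▸ rfl)
    have h3 := hmax _ (avg_mem hc hne' hij)
    exact absurd (avg_lt hne' hne h0 h2) (not_lt.2 h3)
  funext i
  unfold cst
  split_ifs with hi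
  · have h3 : ∑ k ∈ L, c k = ∑ k ∈ L, c i := sum_congr rfl fun k hk => key k i (Or.inl ⟨hk, hi⟩)
    rw [sum_const, hc.2.2.1, nsmul_eq_mul] at h3
    have h4 : (0 : ℝ) < L.card := by exact_mod_cast hL.card_pos
    rw [eq_div_iff h4.ne', h3]; ring
  · have hi' : i ∈ Lᶜ := mem_compl.2 hi
    have h3 : ∑ k ∈ Lᶜ, c k = ∑ k ∈ Lᶜ, c i :=
      sum_congr rfl fun k hk => key k i (Or.inr ⟨hk, hi'⟩)
    rw [sum_const, hc.2.2.2.1, nsmul_eq_mul] at h3
    have h4 : (0 : ℝ) < (Lᶜ).card := by exact_mod_cast hR.card_pos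
    rw [eq_div_iff h4.ne', h3]; ring

/-- **Smoothing.** -/
theorem core {L : Finset ι} {σ Mb τ : ℝ} (hτ : τ ^ 2 * Mb ≤ 3 / 100) (hL : L.Nonempty)
    (hR : (Lᶜ).Nonempty) {c : ι → ℝ} (hc : c ∈ Adm L σ Mb) :
    Phi τ c ≤ Phi τ (cst L σ) ∧ (Phi τ (cst L σ) ≤ Phi τ c → c = cst L σ) := by
  obtain ⟨c₀, hc₀, hmax⟩ := (adm_compact L σ Mb).exists_isMaxOn ⟨c, hc⟩
    ((cont τ univ).2.2.continuousOn)
  have h1 : c₀ = cst L σ := max_eq hτ hL hR hc₀ fun c' hc' => hmax hc'
  rw [← h1]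
  refine ⟨hmax hc, fun h => ?_⟩
  rw [h1]
  exact max_eq hτ hL hR hc fun c' hc' => le_trans (hmax hc') h

end Pool.Agent.H114.Tur
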