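import Pool.Agent.H114.Tur.Norm3
import Pool.Agent.H114.Tur.Core

/-!
The balanced case: `j + 4` positive and `j + 3` negative parameters.
-/

set_option autoImplicit false
set_option linter.unusedSectionVars false

namespace Pool.Agent.H114.Tur

open Polynomial Finset

variable {ι : Type} [DecidableEq ι] [Fintype ι]

/-- the quotient of the norms of `Q''` and `Q` -/
noncomputable def M0 (j : ℕ) : ℝ := nrm (derivative (derivative (Q j))) / q0 j

/-- second derivative of a translate -/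
lemma d2_comp (P : ℝ[X]) (ξ t : ℝ) :
    (derivative (derivative (P.comp (X + C ξ)))).eval t =
      (derivative (derivative P)).eval (ξ + t) := by
  rw [derivative_comp, derivative_mul, derivative_comp]
  simp [add_comm]

lemma d1_comp (P : ℝ[X]) (ξ t : ℝ) :
    (derivative (P.comp (X + C ξ))).eval t = (derivative P).eval (ξ + t) := by
  rw [derivative_comp]
  simp [add_comm]

lemma f_cst (L : Finset ι) (σ : ℝ) (t : ℝ) : (f (cst L σ) univ).eval t =
    (1 + σ / L.card * t) ^ L.card * (1 - σ / (Lᶜ).card * t) ^ (Lᶜ).card := by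
  rw [f_eval, ← prod_mul_prod_compl L]
  congr 1
  · rw [← prod_const]
    refine prod_congr rfl fun i hi => ?_
    rw [cst, if_pos hi]
  · rw [← prod_const]
    refine prod_congr rfl fun i hi => ?_
    rw [cst, if_neg (mem_compl.1 hi)]
    ring

lemma Q_comp (j : ℕ) {L : Finset ι} (hL : L.card = j + 4) (hR : (Lᶜ).card = j + 3) :
    (Q j).comp (X + C (1 / N j)) = C (q0 j) * f (cst L (N j / 2)) univ := by
  apply Polynomial.funext
  intro t
  rw [eval_comp, eval_mul, f_cst, hL, hR]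
  simp only [eval_add, eval_X, eval_C]
  rw [add_comm t, Q_shift]
  congr 1
  push_cast
  rw [div_div, div_div]

lemma Phi_cst (j : ℕ) {L : Finset ι} (hL : L.card = j + 4) (hR : (Lᶜ).card = j + 3) (t : ℝ) :
    Phi t (cst L (N j / 2)) = (derivative (derivative (Q j))).eval (1 / N j + t) / q0 j := by
  have h := d2_comp (Q j) (1 / N j) t
  rw [Q_comp j hL hR, derivative_C_mul, derivative_C_mul, eval_mul, eval_C] at h
  rw [← h, Phi]
  field_simp [(q0_pos j).ne']

/-- the shift -/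
lemma tau (j : ℕ) : ∃ τ : ℝ, 0 < τ ∧ N j * τ < 1 ∧
    τ ^ 2 * (N j ^ 3 / (N j ^ 2 - 9)) ≤ 3 / 100 ∧
    ∀ (L : Finset ι), L.card = j + 4 → (Lᶜ).card = j + 3 → Phi τ (cst L (N j / 2)) = -M0 j := by
  obtain ⟨x, h1, h2, -, h3, -, -⟩ := nrm_d2Q j
  have h7 := N_ge j
  have hn0 : 0 < N j := by linarith
  have hn2 : 0 < N j - 2 := by linarith
  have e : 1 / (N j - 2) - 1 / N j = 2 / (N j * (N j - 2)) := by
    field_simp; ring
  have hτ : x - 1 / N j < 2 / (N j * (N j - 2)) := by rw [← e]; linarith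
  refine ⟨x - 1 / N j, by linarith, ?_, ?_, ?_⟩
  · rw [lt_div_iff₀ (by positivity)] at hτ
    nlinarith
  · have hN9 : 0 < N j ^ 2 - 9 := by nlinarith
    have h4 : (x - 1 / N j) ^ 2 ≤ (2 / (N j * (N j - 2))) ^ 2 :=
      pow_le_pow_left₀ (by linarith) hτ.le 2
    calc (x - 1 / N j) ^ 2 * (N j ^ 3 / (N j ^ 2 - 9))
        ≤ (2 / (N j * (N j - 2))) ^ 2 * (N j ^ 3 / (N j ^ 2 - 9)) :=
          mul_le_mul_of_nonneg_right h4 (by positivity)
      _ = 4 * N j / ((N j - 2) ^ 2 * (N j ^ 2 - 9)) := by field_simp; ring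
      _ ≤ 3 / 100 := by
          rw [div_le_div_iff₀ (by positivity) (by norm_num)]
          have h5 : 25 ≤ (N j - 2) ^ 2 := by nlinarith
          have h6 : 40 * (N j / 7) ≤ N j ^ 2 - 9 := by nlinarith
          nlinarith [mul_le_mul h5 h6 (by positivity) (by positivity)]
  · intro L hL hR
    rw [Phi_cst j hL hR, show 1 / N j + (x - 1 / N j) = x by ring, h3, M0, neg_div]

/-- **The balanced case.** -/
theorem balanced (j : ℕ) {c : ι → ℝ} {L : Finset ι} (hL : L.card = j + 4) (hR : (Lᶜ).card = j + 3)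
    (hpos : ∀ i ∈ L, 0 ≤ c i) (hneg : ∀ i ∈ Lᶜ, c i ≤ 0) (h0 : ∑ i, c i = 0)
    (hS : N j ≤ 2 * ∑ i ∈ L, c i) (hsq : ∑ i, c i ^ 2 ≤ N j ^ 3 / (N j ^ 2 - 9)) :
    ∃ t : ℝ, 0 < t ∧ t * ∑ i ∈ L, c i < 1 ∧ M0 j ≤ |Phi t c| ∧
      (|Phi t c| ≤ M0 j → c = cst L (N j / 2)) := by
  obtain ⟨τ, t1, t2, t3, t4⟩ := tau (ι := ι) j
  have h7 := N_ge j
  have hn0 : 0 < N j := by linarith
  set S := ∑ i ∈ L, c i with hSdef
  have hS0 : 0 < S := by linarith
  set lam := N j / (2 * S) with hlam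
  have hl0 : 0 < lam := by positivity
  have hl1 : lam ≤ 1 := by rw [hlam, div_le_one (by positivity)]; exact hS
  have hSc : ∑ i ∈ Lᶜ, c i = -S := by
    have := sum_add_sum_compl L c
    linarith
  have hM0 : 0 < M0 j := by
    obtain ⟨x, -, -, -, -, -, h⟩ := nrm_d2Q j
    exact div_pos h (q0_pos j)
  have hadm : (fun i => lam * c i) ∈ Adm L (N j / 2) (N j ^ 3 / (N j ^ 2 - 9)) := by
    refine ⟨fun i hi => mul_nonneg hl0.le (hpos i hi), fun i hi =>
      mul_nonpos_of_nonneg_of_nonpos hl0.le (hneg i hi), ?_, ?_, ?_⟩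
    · rw [← mul_sum, ← hSdef, hlam]; field_simp
    · rw [← mul_sum, hSc, hlam]; field_simp
    · have : ∑ i, (lam * c i) ^ 2 = lam ^ 2 * ∑ i, c i ^ 2 := by
        rw [mul_sum]; exact sum_congr rfl fun i _ => by ring
      rw [this]
      have h5 : 0 ≤ ∑ i, c i ^ 2 := sum_nonneg fun i _ => sq_nonneg _
      nlinarith [mul_le_of_le_one_left h5 (show lam ^ 2 ≤ 1 by nlinarith)]
  have hLn : L.Nonempty := by rw [← card_pos]; omega
  have hRn : (Lᶜ).Nonempty := by rw [← card_pos]; omega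
  obtain ⟨k1, k2⟩ := core t3 hLn hRn hadm
  rw [t4 L hL hR] at k1 k2
  have hsc : Phi τ (fun i => lam * c i) = lam ^ 2 * Phi (lam * τ) c := f2_scale lam c univ τ
  rw [hsc] at k1 k2
  have hP : Phi (lam * τ) c < 0 := by
    by_contra hcon
    push Not at hcon
    have : 0 ≤ lam ^ 2 * Phi (lam * τ) c := by positivity
    linarith
  refine ⟨lam * τ, by positivity, ?_, ?_, ?_⟩
  · have : lam * τ * S = N j * τ / 2 := by rw [hlam]; field_simp
    rw [this]; linarith
  · rw [abs_of_neg hP]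
    have h8 : lam ^ 2 ≤ 1 := by nlinarith
    have h9 : lam ^ 2 * (-Phi (lam * τ) c) ≤ -Phi (lam * τ) c :=
      mul_le_of_le_one_left (by linarith) h8
    linarith
  · rw [abs_of_neg hP]
    intro h
    have hl2 : lam = 1 := by
      by_contra hne
      have hlt : lam < 1 := lt_of_le_of_ne hl1 hne
      have h8 : lam ^ 2 < 1 := by nlinarith
      nlinarith
    rw [hl2] at h k2
    have h9 := k2 (by linarith)
    rw [← h9]
    funext i
    ring

end Pool.Agent.H114.Tur
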