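import Mathlib
/-! Positivity of two polynomials on the unit interval. -/

set_option autoImplicit false
namespace Pool.Agent.H114.Tur

lemma E_pos (x : ℝ) (h0 : 0 ≤ x) (h1 : x ≤ 1) : 0 < ((3/2)) * x ^ 0 + (1) * x ^ 1 + (-7) * x ^ 2 + (-3) * x ^ 3 + (13) * x ^ 4 + (-1) * x ^ 5 + (-11) * x ^ 6 + (7) * x ^ 7 + (6) * x ^ 8 + (-4) * x ^ 9 + (-2) * x ^ 10 := by
  by_cases c0 : x ≤ (1/2)
  · obtain ⟨u, v, hu, hv, hx, huv⟩ : ∃ u v : ℝ, 0 ≤ u ∧ 0 ≤ v ∧ x = 0 + u ∧ v = (1/2) - u :=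
      ⟨x - 0, (1/2) - x, by linarith, by linarith, by ring, by ring⟩
    have key : ((3/2)) * x ^ 0 + (1) * x ^ 1 + (-7) * x ^ 2 + (-3) * x ^ 3 + (13) * x ^ 4 + (-1) * x ^ 5 + (-11) * x ^ 6 + (7) * x ^ 7 + (6) * x ^ 8 + (-4) * x ^ 9 + (-2) * x ^ 10 = (283/1024) + (1253 * (u ^ 0 * v ^ 10) + 13042 * (u ^ 1 * v ^ 9) + 59201 * (u ^ 2 * v ^ 8) + 154072 * (u ^ 3 * v ^ 7) + 254106 * (u ^ 4 * v ^ 6) + 276812 * (u ^ 5 * v ^ 5) + 200906 * (u ^ 6 * v ^ 4) + 95248 * (u ^ 7 * v ^ 3) + 27873 * (u ^ 8 * v ^ 2) + 4450 * (u ^ 9 * v ^ 1) + 283 * (u ^ 10 * v ^ 0)) := by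
      rw [huv, hx]; ring
    rw [key]; positivity
  by_cases c1 : x ≤ (3/4)
  · obtain ⟨u, v, hu, hv, hx, huv⟩ : ∃ u v : ℝ, 0 ≤ u ∧ 0 ≤ v ∧ x = (1/2) + u ∧ v = (1/4) - u :=
      ⟨x - (1/2), (3/4) - x, by linarith, by linarith, by ring, by ring⟩
    have key : ((3/2)) * x ^ 0 + (1) * x ^ 1 + (-7) * x ^ 2 + (-3) * x ^ 3 + (13) * x ^ 4 + (-1) * x ^ 5 + (-11) * x ^ 6 + (7) * x ^ 7 + (6) * x ^ 8 + (-4) * x ^ 9 + (-2) * x ^ 10 = (21851/524288) + (535882 * (u ^ 0 * v ^ 10) + 4529380 * (u ^ 1 * v ^ 9) + 16792578 * (u ^ 2 * v ^ 8) + 35780272 * (u ^ 3 * v ^ 7) + 48218036 * (u ^ 4 * v ^ 6) + 42644696 * (u ^ 5 * v ^ 5) + 24945396 * (u ^ 6 * v ^ 4) + 9605872 * (u ^ 7 * v ^ 3) + 2457626 * (u ^ 8 * v ^ 2) + 437020 * (u ^ 9 * v ^ 1) + 47720 * (u ^ 10 * v ^ 0)) := by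
      rw [huv, hx]; ring
    rw [key]; positivity
  obtain ⟨u, v, hu, hv, hx, huv⟩ : ∃ u v : ℝ, 0 ≤ u ∧ 0 ≤ v ∧ x = (3/4) + u ∧ v = (1/4) - u :=
    ⟨x - (3/4), 1 - x, by linarith, by linarith, by ring, by ring⟩
  have key : ((3/2)) * x ^ 0 + (1) * x ^ 1 + (-7) * x ^ 2 + (-3) * x ^ 3 + (13) * x ^ 4 + (-1) * x ^ 5 + (-11) * x ^ 6 + (7) * x ^ 7 + (6) * x ^ 8 + (-4) * x ^ 9 + (-2) * x ^ 10 = (45711/1048576) + (45711 * (u ^ 0 * v ^ 10) + 497290 * (u ^ 1 * v ^ 9) + 3090461 * (u ^ 2 * v ^ 8) + 12355384 * (u ^ 3 * v ^ 7) + 31957170 * (u ^ 4 * v ^ 6) + 54098748 * (u ^ 5 * v ^ 5) + 60262066 * (u ^ 6 * v ^ 4) + 43535608 * (u ^ 7 * v ^ 3) + 19438813 * (u ^ 8 * v ^ 2) + 4785770 * (u ^ 9 * v ^ 1) + 478577 * (u ^ 10 * v ^ 0)) := by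
    rw [huv, hx]; ring
  rw [key]; positivity

lemma T_pos (x : ℝ) (h0 : 0 ≤ x) (h1 : x ≤ 1) : 0 < ((27/2)) * x ^ 0 + (18) * x ^ 1 + (-36) * x ^ 2 + (-60) * x ^ 3 + (30) * x ^ 4 + (42) * x ^ 5 := by
  by_cases c0 : x ≤ (1/2)
  · obtain ⟨u, v, hu, hv, hx, huv⟩ : ∃ u v : ℝ, 0 ≤ u ∧ 0 ≤ v ∧ x = 0 + u ∧ v = (1/2) - u :=
      ⟨x - 0, (1/2) - x, by linarith, by linarith, by ring, by ring⟩
    have key : ((27/2)) * x ^ 0 + (18) * x ^ 1 + (-36) * x ^ 2 + (-60) * x ^ 3 + (30) * x ^ 4 + (42) * x ^ 5 = (147/32) + (285 * (u ^ 0 * v ^ 5) + 1713 * (u ^ 1 * v ^ 4) + 3714 * (u ^ 2 * v ^ 3) + 3474 * (u ^ 3 * v ^ 2) + 1293 * (u ^ 4 * v ^ 1) + 147 * (u ^ 5 * v ^ 0)) := by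
      rw [huv, hx]; ring
    rw [key]; positivity
  by_cases c1 : x ≤ (4/5)
  · obtain ⟨u, v, hu, hv, hx, huv⟩ : ∃ u v : ℝ, 0 ≤ u ∧ 0 ≤ v ∧ x = (1/2) + u ∧ v = (3/10) - u :=
      ⟨x - (1/2), (4/5) - x, by linarith, by linarith, by ring, by ring⟩
    have key : ((27/2)) * x ^ 0 + (18) * x ^ 1 + (-36) * x ^ 2 + (-60) * x ^ 3 + (30) * x ^ 4 + (42) * x ^ 5 = (1191/12500) + ((303074/81) * (u ^ 0 * v ^ 5) + (1166620/81) * (u ^ 1 * v ^ 4) + (1550240/81) * (u ^ 2 * v ^ 3) + (776240/81) * (u ^ 3 * v ^ 2) + (89320/81) * (u ^ 4 * v ^ 1) + (3176/81) * (u ^ 5 * v ^ 0)) := by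
      rw [huv, hx]; ring
    rw [key]; positivity
  obtain ⟨u, v, hu, hv, hx, huv⟩ : ∃ u v : ℝ, 0 ≤ u ∧ 0 ≤ v ∧ x = (4/5) + u ∧ v = (1/5) - u :=
    ⟨x - (4/5), 1 - x, by linarith, by linarith, by ring, by ring⟩
  have key : ((27/2)) * x ^ 0 + (18) * x ^ 1 + (-36) * x ^ 2 + (-60) * x ^ 3 + (30) * x ^ 4 + (42) * x ^ 5 = (171/12500) + ((1381875/4) * (u ^ 0 * v ^ 9) + (961875/4) * (u ^ 1 * v ^ 8) + 1224375 * (u ^ 2 * v ^ 7) + 35619375 * (u ^ 3 * v ^ 6) + (317120625/2) * (u ^ 4 * v ^ 5) + (656173125/2) * (u ^ 5 * v ^ 4) + 380724375 * (u ^ 6 * v ^ 3) + 256381875 * (u ^ 7 * v ^ 2) + (376381875/4) * (u ^ 8 * v ^ 1) + (58486875/4) * (u ^ 9 * v ^ 0)) := by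
    rw [huv, hx]; ring
  rw [key]; positivity

end Pool.Agent.H114.Tur
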