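import Pool.Agent.H114.Tur.Main

/-!
The inequality for products of linear factors with zeros in `[-1, 1]`, with the case of equality.
-/

set_option autoImplicit false
set_option linter.unusedSectionVars false

namespace Pool.Agent.H114.Tur

open Polynomial Finset

variable {ι : Type} [DecidableEq ι] [Fintype ι]

/-- `a ∏ (X - z i)` -/
noncomputable def pr (a : ℝ) (z : ι → ℝ) : ℝ[X] := C a * ∏ i, (X - C (z i))

lemma pr_eval (a : ℝ) (z : ι → ℝ) (x : ℝ) : (pr a z).eval x = a * ∏ i, (x - z i) := by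
  unfold pr
  rw [eval_mul, eval_C, eval_prod]
  simp

lemma pr_comp (a : ℝ) (z : ι → ℝ) (ξ : ℝ) (hne : ∀ i, ξ ≠ z i) :
    (pr a z).comp (X + C ξ) = C ((pr a z).eval ξ) * f (fun i => 1 / (ξ - z i)) univ := by
  apply Polynomial.funext
  intro t
  rw [eval_comp, eval_mul, f_eval, eval_C, pr_eval, pr_eval, mul_assoc, ← prod_mul_distrib]
  congr 1
  refine prod_congr rfl fun i _ => ?_
  have h : ξ - z i ≠ 0 := sub_ne_zero.2 (hne i)
  simp only [eval_add, eval_X, eval_C]
  field_simp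
  ring

lemma nrm_pos {P : ℝ[X]} (hP : P ≠ 0) : 0 < nrm P := by
  by_contra hcon
  apply hP
  have h := (nrm_spec P).2
  refine eq_zero_of_infinite_isRoot P ((Set.Icc_infinite (show (-1 : ℝ) < 1 by norm_num)).mono ?_)
  intro x hx
  have h1 := h x hx
  have h2 : |P.eval x| = 0 := le_antisymm (by linarith) (abs_nonneg _)
  exact abs_eq_zero.1 h2

/-- the zeros in the first extremal case -/
lemma config {j : ℕ} {ξ : ℝ} {z : ι → ℝ} {L : Finset ι} (hL : L.card = j + 4)
    (hR : (Lᶜ).card = j + 3) (hz : ∀ i, -1 ≤ z i ∧ z i ≤ 1)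
    (h1 : ∀ i ∈ L, ξ - z i = 2 * (j + 4) / N j) (h2 : ∀ i ∈ Lᶜ, z i - ξ = 2 * (j + 3) / N j) :
    (∀ i ∈ L, z i = -1) ∧ ∀ i ∈ Lᶜ, z i = 1 := by
  have h7 := N_ge j
  have hN : N j = 2 * j + 7 := rfl
  have hn0 : 0 < N j := by linarith
  have hLn : L.Nonempty := by rw [← card_pos]; omega
  have hRn : (Lᶜ).Nonempty := by rw [← card_pos]; omega
  obtain ⟨i, hi⟩ := hLn
  obtain ⟨k, hk⟩ := hRn
  have e1 := h1 i hi
  have e2 := h2 k hk
  have e3 : 2 * ((j : ℝ) + 4) / N j = 1 + 1 / N j := by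
    field_simp; rw [hN]; ring
  have e4 : 2 * ((j : ℝ) + 3) / N j = 1 - 1 / N j := by
    field_simp; rw [hN]; ring
  rw [e3] at e1 h1
  rw [e4] at e2 h2
  have hξ : ξ = 1 / N j := by linarith [(hz i).1, (hz k).2]
  constructor
  · intro i hi
    linarith [h1 i hi]
  · intro i hi
    linarith [h2 i hi]

lemma pr_config {j : ℕ} (a : ℝ) {z : ι → ℝ} {L : Finset ι} (hL : L.card = j + 4)
    (hR : (Lᶜ).card = j + 3) {u v : ℝ} (h1 : ∀ i ∈ L, z i = u) (h2 : ∀ i ∈ Lᶜ, z i = v) :
    pr a z = C a * ((X - C u) ^ (j + 4) * (X - C v) ^ (j + 3)) := by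
  have e1 : ∏ i ∈ L, (X - C (z i)) = (X - C u) ^ (j + 4) := by
    rw [← hL, ← prod_const]
    exact prod_congr rfl fun i hi => by rw [h1 i hi]
  have e2 : ∏ i ∈ Lᶜ, (X - C (z i)) = (X - C v) ^ (j + 3) := by
    rw [← hR, ← prod_const]
    exact prod_congr rfl fun i hi => by rw [h2 i hi]
  unfold pr
  rw [← prod_mul_prod_compl L, e1, e2]

/-- **The inequality for products.** -/
theorem prod_form (j : ℕ) (hcard : Fintype.card ι = 2 * j + 7) {a : ℝ} (ha : a ≠ 0) {z : ι → ℝ}
    (hz : ∀ i, -1 ≤ z i ∧ z i ≤ 1) :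
    M0 j * nrm (pr a z) ≤ nrm (derivative (derivative (pr a z))) ∧
    (nrm (derivative (derivative (pr a z))) ≤ M0 j * nrm (pr a z) →
      ∃ b : ℝ, b ≠ 0 ∧ (pr a z = C b * Q j ∨ pr a z = C b * (Q j).comp (-X))) := by
  have h7 := N_ge j
  have hP0 : pr a z ≠ 0 := by
    unfold pr
    exact mul_ne_zero (C_ne_zero.2 ha) (prod_ne_zero_iff.2 fun i _ => X_sub_C_ne_zero (z i))
  obtain ⟨hM1, hM2⟩ := M0_lt j
  obtain ⟨⟨ξ, hξ, hξe⟩, hmax⟩ := nrm_spec (pr a z)
  have hH := nrm_pos hP0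
  set H := nrm (pr a z) with hHdef
  have hPξ : (pr a z).eval ξ ≠ 0 := by
    intro h
    rw [h, abs_zero] at hξe
    exact hH.ne hξe
  have hne : ∀ i, ξ ≠ z i := by
    intro i h
    apply hPξ
    rw [pr_eval, prod_eq_zero (mem_univ i) (sub_eq_zero.2 h), mul_zero]
  have h2 : ∀ t, (derivative (derivative (pr a z))).eval (ξ + t) =
      (pr a z).eval ξ * Phi t (fun i => 1 / (ξ - z i)) := by
    intro t
    rw [← d2_comp, pr_comp a z ξ hne, derivative_C_mul, derivative_C_mul, eval_mul, eval_C]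
    rfl
  have h1 : (derivative (pr a z)).eval ξ = (pr a z).eval ξ * ∑ i, 1 / (ξ - z i) := by
    have := d1_comp (pr a z) ξ 0
    rw [add_zero] at this
    rw [← this, pr_comp a z ξ hne, derivative_C_mul, eval_mul, eval_C, d1_zero]
  obtain ⟨-, hmax2⟩ := nrm_spec (derivative (derivative (pr a z)))
  -- consequences of a good point
  have hgood : ∀ t, -1 ≤ ξ + t → ξ + t ≤ 1 →
      H * |Phi t (fun i => 1 / (ξ - z i))| ≤ nrm (derivative (derivative (pr a z))) := by
    intro t t1 t2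
    have := hmax2 (ξ + t) ⟨t1, t2⟩
    rwa [h2, abs_mul, hξe] at this
  have hcard1 : 1 ≤ Fintype.card ι := by omega
  have hcardN : (Fintype.card ι : ℝ) = N j := by rw [hcard]; unfold N; push_cast; ring
  have hN9 : 0 < N j ^ 2 - 9 := by nlinarith
  have hend : N j ^ 3 / (N j ^ 2 - 9) ≤ N j * (N j - 1) / 4 := by
    rw [div_le_iff₀ hN9]
    nlinarith [mul_nonneg (mul_nonneg (by linarith : (0 : ℝ) ≤ N j) (by linarith : (0 : ℝ) ≤ N j - 7))
      (by linarith : (0 : ℝ) ≤ N j - 7), mul_nonneg (by linarith : (0 : ℝ) ≤ N j)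
      (by linarith : (0 : ℝ) ≤ N j - 7)]
  -- strict case
  have hstrict : M0 j < |Phi 0 (fun i => 1 / (ξ - z i))| →
      M0 j * H ≤ nrm (derivative (derivative (pr a z))) ∧
      (nrm (derivative (derivative (pr a z))) ≤ M0 j * H →
        ∃ b : ℝ, b ≠ 0 ∧ (pr a z = C b * Q j ∨ pr a z = C b * (Q j).comp (-X))) := by
    intro h
    have h3 := hgood 0 (by linarith [hξ.1]) (by linarith [hξ.2])
    have h4 : M0 j * H < H * |Phi 0 (fun i => 1 / (ξ - z i))| := by nlinarith
    exact ⟨by linarith, fun h5 => by linarith⟩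
  rcases eq_or_lt_of_le hξ.2 with hξ1 | hξ1
  · -- `ξ = 1`
    apply hstrict
    have h3 : ∀ i, 1 / 2 ≤ 1 / (ξ - z i) := by
      intro i
      have h4 : 0 < ξ - z i := by
        rcases lt_or_eq_of_le (sub_nonneg.2 (hξ1 ▸ (hz i).2 : z i ≤ ξ)) with h | h
        · exact h
        · exact absurd (sub_eq_zero.1 h.symm) (hne i)
      exact one_div_le_one_div_of_le h4 (by linarith [(hz i).1])
    have h5 := endpoint _ h3 hcard1
    rw [hcardN] at h5
    exact lt_of_lt_of_le (by linarith) (le_abs_self _)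
  rcases eq_or_lt_of_le hξ.1 with hξ2 | hξ2
  · -- `ξ = -1`
    apply hstrict
    have h3 : ∀ i, 1 / 2 ≤ -(1 / (ξ - z i)) := by
      intro i
      have h4 : 0 < z i - ξ := by
        rcases lt_or_eq_of_le (sub_nonneg.2 (hξ2 ▸ (hz i).1 : ξ ≤ z i)) with h | h
        · exact h
        · exact absurd (sub_eq_zero.1 h.symm).symm (hne i)
      rw [show -(1 / (ξ - z i)) = 1 / (z i - ξ) by
        rw [← neg_sub (z i) ξ, one_div_neg_eq_neg_one_div]; ring]
      exact one_div_le_one_div_of_le h4 (by linarith [(hz i).2])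
    have h5 := endpoint _ h3 hcard1
    rw [hcardN, Phi_neg, neg_zero] at h5
    exact lt_of_lt_of_le (by linarith) (le_abs_self _)
  -- interior
  have hcrit : ∑ i, 1 / (ξ - z i) = 0 := by
    have hloc : IsLocalMax (fun y => (C ((pr a z).eval ξ) * pr a z).eval y) ξ := by
      filter_upwards [Ioo_mem_nhds hξ2 hξ1] with y hy
      have h3 := hmax y ⟨hy.1.le, hy.2.le⟩
      simp only [eval_mul, eval_C]
      calc (pr a z).eval ξ * (pr a z).eval y ≤ |(pr a z).eval ξ * (pr a z).eval y| := le_abs_self _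
        _ = |(pr a z).eval ξ| * |(pr a z).eval y| := abs_mul _ _
        _ ≤ |(pr a z).eval ξ| * |(pr a z).eval ξ| :=
            mul_le_mul_of_nonneg_left (by rw [hξe]; exact h3) (abs_nonneg _)
        _ = (pr a z).eval ξ * (pr a z).eval ξ := abs_mul_abs_self _
    have h3 := hloc.hasDerivAt_eq_zero ((C ((pr a z).eval ξ) * pr a z).hasDerivAt ξ)
    rw [derivative_C_mul, eval_mul, eval_C, h1] at h3
    rcases mul_eq_zero.1 h3 with h | h
    · exact absurd h hPξ
    · rcases mul_eq_zero.1 h with h | h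
      · exact absurd h hPξ
      · exact h
  obtain ⟨t, t1, t2, t3, t4⟩ := params j hcard hξ2 hξ1 hz hne hcrit
  have h3 := hgood t t1 t2
  refine ⟨by nlinarith, fun h5 => ?_⟩
  have h6 : |Phi t (fun i => 1 / (ξ - z i))| ≤ M0 j := by
    by_contra hcon
    push Not at hcon
    nlinarith
  obtain ⟨L, hL, hR, h | h⟩ := t4 h6
  · have hN0 : N j ≠ 0 := by linarith
    have c1 : ∀ i ∈ L, ξ - z i = 2 * (j + 4) / N j := by
      intro i hi
      have h8 := congrFun h i
      simp only [cst, if_pos hi, hL] at h8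
      have h9 : ξ - z i ≠ 0 := sub_ne_zero.2 (hne i)
      push_cast at h8
      have h10 : ((j : ℝ) + 4) ≠ 0 := by positivity
      field_simp at h8 ⊢
      linarith
    have c2 : ∀ i ∈ Lᶜ, z i - ξ = 2 * (j + 3) / N j := by
      intro i hi
      have h8 := congrFun h i
      simp only [cst, if_neg (mem_compl.1 hi), hR] at h8
      have h9 : ξ - z i ≠ 0 := sub_ne_zero.2 (hne i)
      push_cast at h8
      have h10 : ((j : ℝ) + 3) ≠ 0 := by positivity
      field_simp at h8 ⊢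
      linarith
    obtain ⟨d1, d2⟩ := config hL hR hz c1 c2
    refine ⟨a * (-1) ^ (j + 3), mul_ne_zero ha (pow_ne_zero _ (by norm_num)), Or.inl ?_⟩
    rw [pr_config a hL hR d1 d2, Q]
    have e1 : (X - C (1 : ℝ)) ^ (j + 3) = C ((-1) ^ (j + 3)) * (1 - X) ^ (j + 3) := by
      rw [C_pow, ← mul_pow]
      congr 1
      simp
    rw [e1]
    simp only [C_mul, C_neg, C_1, sub_neg_eq_add]
    ring
  · have hN0 : N j ≠ 0 := by linarith
    have c1 : ∀ i ∈ L, (-ξ) - (-z i) = 2 * (j + 4) / N j := by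
      intro i hi
      have h8 := congrFun h i
      simp only [cst, if_pos hi, hL] at h8
      have h9 : ξ - z i ≠ 0 := sub_ne_zero.2 (hne i)
      push_cast at h8
      have h10 : ((j : ℝ) + 4) ≠ 0 := by positivity
      field_simp at h8 ⊢
      linarith
    have c2 : ∀ i ∈ Lᶜ, (-z i) - (-ξ) = 2 * (j + 3) / N j := by
      intro i hi
      have h8 := congrFun h i
      simp only [cst, if_neg (mem_compl.1 hi), hR] at h8
      have h9 : ξ - z i ≠ 0 := sub_ne_zero.2 (hne i)
      push_cast at h8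
      have h10 : ((j : ℝ) + 3) ≠ 0 := by positivity
      field_simp at h8 ⊢
      linarith
    obtain ⟨d1, d2⟩ := config (z := fun i => -z i) hL hR
      (fun i => ⟨by linarith [(hz i).2], by linarith [(hz i).1]⟩) c1 c2
    refine ⟨a * (-1) ^ (j + 4), mul_ne_zero ha (pow_ne_zero _ (by norm_num)), Or.inr ?_⟩
    rw [pr_config a hL hR (u := 1) (v := -1) (fun i hi => by linarith [d1 i hi])
      (fun i hi => by linarith [d2 i hi]), Q]
    have e1 : (X - C (1 : ℝ)) ^ (j + 4) = C ((-1) ^ (j + 4)) * (1 - X) ^ (j + 4) := by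
      rw [C_pow, ← mul_pow]
      congr 1
      simp
    rw [e1]
    simp only [C_mul, C_neg, C_1, sub_neg_eq_add, mul_comp, pow_comp, add_comp, sub_comp, one_comp,
      X_comp]
    ring

end Pool.Agent.H114.Tur
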