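import Pool.Agent.H114.Tur.Bal

/-!
The inequality for all products of linear factors with zeros in `[-1, 1]`.
-/

set_option autoImplicit false
set_option linter.unusedSectionVars false

namespace Pool.Agent.H114.Tur

open Polynomial Finset

variable {ι : Type} [DecidableEq ι] [Fintype ι]

lemma Phi_zero (c : ι → ℝ) : Phi 0 c = (∑ i, c i) ^ 2 - ∑ i, c i ^ 2 := by
  have h := (logd 0 c univ (by simp)).2
  rw [f_eval] at h
  simpa [Phi] using h

lemma d1_zero (c : ι → ℝ) : (derivative (f c univ)).eval 0 = ∑ i, c i := by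
  have h := (logd 0 c univ (by simp)).1
  rw [f_eval] at h
  simpa using h

lemma Phi_neg (t : ℝ) (c : ι → ℝ) : Phi t (fun i => -c i) = Phi (-t) c := by
  have h := f2_scale (-1) c univ t
  simp only [neg_mul, one_mul, neg_sq, one_pow] at h
  exact h

/-- one sided parameters -/
lemma endpoint (c : ι → ℝ) (h : ∀ i, 1 / 2 ≤ c i) (hι : 1 ≤ Fintype.card ι) :
    (Fintype.card ι : ℝ) * (Fintype.card ι - 1) / 4 ≤ Phi 0 c := by
  set n : ℝ := (Fintype.card ι : ℝ) with hn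
  have hn1 : 1 ≤ n := by rw [hn]; exact_mod_cast hι
  have h1 : ∀ i, (n - 1) / 2 ≤ ∑ k ∈ univ.erase i, c k := by
    intro i
    have h2 : ∑ k ∈ univ.erase i, (1 / 2 : ℝ) ≤ ∑ k ∈ univ.erase i, c k :=
      sum_le_sum fun k _ => h k
    rw [sum_const, card_erase_of_mem (mem_univ i), nsmul_eq_mul, card_univ,
      Nat.cast_sub hι, Nat.cast_one, ← hn] at h2
    linarith
  have h3 : Phi 0 c = ∑ i, c i * ∑ k ∈ univ.erase i, c k := by
    rw [Phi_zero, sq, sum_mul]
    rw [← sum_sub_distrib]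
    refine sum_congr rfl fun i _ => ?_
    have := add_sum_erase univ c (mem_univ i)
    rw [← this]; ring
  rw [h3]
  have h4 : ∑ _i : ι, (1 / 2 : ℝ) * ((n - 1) / 2) ≤ ∑ i, c i * ∑ k ∈ univ.erase i, c k :=
    sum_le_sum fun i _ => mul_le_mul (h i) (h1 i) (by linarith) (by linarith [h i])
  rw [sum_const, card_univ, nsmul_eq_mul, ← hn] at h4
  linarith

lemma M0_lt (j : ℕ) : M0 j < N j ^ 3 / (N j ^ 2 - 9) ∧ 0 < M0 j := by
  obtain ⟨x, -, -, -, -, h1, h2⟩ := nrm_d2Q j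
  have hq := q0_pos j
  refine ⟨?_, div_pos h2 hq⟩
  rw [M0, div_lt_iff₀ hq]
  linarith

/-- the case of unequal numbers -/
lemma unbalanced {j l r : ℕ} (hlr : l + r = 2 * j + 7) (h1 : l ≠ j + 4) (h2 : l ≠ j + 3)
    (hl : 0 < l) (hr : 0 < r) {S A B : ℝ} (hS : N j ≤ 2 * S) (hA : S ^ 2 ≤ l * A)
    (hB : S ^ 2 ≤ r * B) : N j ^ 3 / (N j ^ 2 - 9) ≤ A + B := by
  have h7 := N_ge j
  have hN9 : 0 < N j ^ 2 - 9 := by nlinarith
  have hl' : (0 : ℝ) < l := by exact_mod_cast hl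
  have hr' : (0 : ℝ) < r := by exact_mod_cast hr
  have hlr' : (l : ℝ) + r = N j := by
    unfold N; exact_mod_cast hlr
  have hprod : 4 * ((l : ℝ) * r) ≤ N j ^ 2 - 9 := by
    have hd : (9 : ℝ) ≤ ((l : ℝ) - r) ^ 2 := by
      rcases Nat.lt_or_ge l (j + 3) with h | h
      · have h3 : (l : ℝ) + 3 ≤ r := by
          have : l + 3 ≤ r := by omega
          exact_mod_cast this
        nlinarith
      · have h3 : (r : ℝ) + 3 ≤ l := by
          have : r + 3 ≤ l := by omega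
          exact_mod_cast this
        nlinarith
    nlinarith
  have hA' : S ^ 2 / l ≤ A := by rw [div_le_iff₀ hl']; linarith
  have hB' : S ^ 2 / r ≤ B := by rw [div_le_iff₀ hr']; linarith
  have hS2 : N j ^ 2 / 4 ≤ S ^ 2 := by nlinarith
  calc N j ^ 3 / (N j ^ 2 - 9) ≤ N j ^ 3 / (4 * (l * r)) :=
        div_le_div_of_nonneg_left (by positivity) (by positivity) hprod
    _ = N j ^ 2 / 4 / l + N j ^ 2 / 4 / r := by
        rw [← hlr']; field_simp; ring
    _ ≤ S ^ 2 / l + S ^ 2 / r := by gcongr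
    _ ≤ A + B := add_le_add hA' hB'

/-- **Inequality for the parameters.** `c i = 1 / (ξ - z i)`. -/
theorem params (j : ℕ) (hcard : Fintype.card ι = 2 * j + 7) {ξ : ℝ} (hξ : -1 < ξ) (hξ' : ξ < 1)
    {z : ι → ℝ} (hz : ∀ i, -1 ≤ z i ∧ z i ≤ 1) (hne : ∀ i, ξ ≠ z i)
    (h0 : ∑ i, 1 / (ξ - z i) = 0) :
    ∃ t : ℝ, -1 ≤ ξ + t ∧ ξ + t ≤ 1 ∧ M0 j ≤ |Phi t (fun i => 1 / (ξ - z i))| ∧
      (|Phi t (fun i => 1 / (ξ - z i))| ≤ M0 j → ∃ L : Finset ι, L.card = j + 4 ∧
        (Lᶜ).card = j + 3 ∧ (((fun i => 1 / (ξ - z i)) = cst L (N j / 2)) ∨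
          (fun i => -(1 / (ξ - z i))) = cst L (N j / 2))) := by
  have h7 := N_ge j
  obtain ⟨hM1, hM2⟩ := M0_lt j
  set c : ι → ℝ := fun i => 1 / (ξ - z i) with hc
  set L : Finset ι := univ.filter (fun i => 0 < c i) with hL
  have hcpos : ∀ i ∈ L, 0 < ξ - z i := by
    intro i hi
    rw [hL, mem_filter] at hi
    exact one_div_pos.1 hi.2
  have hcneg : ∀ i ∈ Lᶜ, ξ - z i < 0 := by
    intro i hi
    rw [hL, mem_compl, mem_filter, not_and] at hi
    have h1 := not_lt.1 (hi (mem_univ i))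
    have h2 : ξ - z i ≠ 0 := sub_ne_zero.2 (hne i)
    rcases lt_or_gt_of_ne h2 with h | h
    · exact h
    · exact absurd (one_div_pos.2 h) (not_lt.2 h1)
  set S := ∑ i ∈ L, c i with hS
  have hSc : ∑ i ∈ Lᶜ, c i = -S := by
    have h1 := sum_add_sum_compl L c
    have h2 : ∑ i, c i = 0 := h0
    linarith
  have hl : (L.card : ℝ) ≤ S * (1 + ξ) := by
    have : ∑ i ∈ L, (1 : ℝ) ≤ ∑ i ∈ L, c i * (1 + ξ) := by
      refine sum_le_sum fun i hi => ?_
      have h1 := hcpos i hi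
      rw [hc]
      simp only
      rw [one_div, inv_mul_eq_div, le_div_iff₀ h1]
      linarith [(hz i).1]
    rw [sum_const, nsmul_eq_mul, mul_one, ← sum_mul] at this
    exact this
  have hr : ((Lᶜ).card : ℝ) ≤ S * (1 - ξ) := by
    have : ∑ i ∈ Lᶜ, (1 : ℝ) ≤ ∑ i ∈ Lᶜ, (-c i) * (1 - ξ) := by
      refine sum_le_sum fun i hi => ?_
      have h1 := hcneg i hi
      have h2 : 0 < z i - ξ := by linarith
      rw [hc]
      simp only
      rw [show -(1 / (ξ - z i)) = 1 / (z i - ξ) by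
        rw [← neg_sub (z i) ξ, one_div_neg_eq_neg_one_div]; ring, one_div, inv_mul_eq_div,
        le_div_iff₀ h2]
      linarith [(hz i).2]
    rw [sum_const, nsmul_eq_mul, mul_one, ← sum_mul, sum_neg_distrib, hSc, neg_neg] at this
    exact this
  have hcc : L.card + (Lᶜ).card = 2 * j + 7 := by
    rw [card_add_card_compl, hcard]
  have hcc' : (L.card : ℝ) + (Lᶜ).card = N j := by
    unfold N; exact_mod_cast hcc
  have hSN : N j ≤ 2 * S := by nlinarith
  have hS0 : 0 < S := by linarith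
  have hlpos : 0 < L.card := by
    by_contra hcon
    have h1 : L = ∅ := card_eq_zero.1 (by omega)
    rw [hS, h1, sum_empty] at hS0
    exact lt_irrefl _ hS0
  have hrpos : 0 < (Lᶜ).card := by
    by_contra hcon
    have h1 : Lᶜ = ∅ := card_eq_zero.1 (by omega)
    rw [h1, sum_empty] at hSc
    linarith
  have hA : S ^ 2 ≤ L.card * ∑ i ∈ L, c i ^ 2 := sq_sum_le_card_mul_sum_sq
  have hB : S ^ 2 ≤ (Lᶜ).card * ∑ i ∈ Lᶜ, c i ^ 2 := by
    have := sq_sum_le_card_mul_sum_sq (s := Lᶜ) (f := c)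
    rwa [hSc, neg_sq] at this
  have hAB : ∑ i ∈ L, c i ^ 2 + ∑ i ∈ Lᶜ, c i ^ 2 = ∑ i, c i ^ 2 := sum_add_sum_compl L _
  have hPhi0 : Phi 0 c = -∑ i, c i ^ 2 := by
    rw [Phi_zero]
    have : ∑ i, c i = 0 := h0
    rw [this]; ring
  have hsn : 0 ≤ ∑ i, c i ^ 2 := sum_nonneg fun i _ => sq_nonneg _
  -- large sum of squares
  by_cases hbig : N j ^ 3 / (N j ^ 2 - 9) ≤ ∑ i, c i ^ 2
  · refine ⟨0, by linarith, by linarith, ?_, ?_⟩
    · rw [hPhi0, abs_neg, abs_of_nonneg hsn]; linarith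
    · intro h
      rw [hPhi0, abs_neg, abs_of_nonneg hsn] at h
      linarith
  have hsmall : ∑ i, c i ^ 2 ≤ N j ^ 3 / (N j ^ 2 - 9) := (not_le.1 hbig).le
  by_cases hl4 : L.card = j + 4
  · have hr3 : (Lᶜ).card = j + 3 := by omega
    obtain ⟨t, t1, t2, t3, t4⟩ := balanced j (c := c) hl4 hr3
      (fun i hi => (one_div_pos.2 (hcpos i hi)).le) (fun i hi => (one_div_neg.2 (hcneg i hi)).le)
      h0 hSN hsmall
    rw [← hS] at t2
    refine ⟨t, by linarith, ?_, t3, fun h => ⟨L, hl4, hr3, Or.inl (t4 h)⟩⟩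
    -- `t ≤ 1 - ξ`
    have h1 : (1 : ℝ) ≤ (Lᶜ).card := by exact_mod_cast hrpos
    nlinarith
  by_cases hl3 : L.card = j + 3
  · have hr4 : (Lᶜ).card = j + 4 := by omega
    have hneg0 : ∑ i, -c i = 0 := by
      rw [sum_neg_distrib]
      have : ∑ i, c i = 0 := h0
      rw [this, neg_zero]
    have hnegS : ∑ i ∈ Lᶜ, -c i = S := by rw [sum_neg_distrib, hSc, neg_neg]
    obtain ⟨t, t1, t2, t3, t4⟩ := balanced j (c := fun i => -c i) (L := Lᶜ) hr4
      (by rw [compl_compl]; exact hl3)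
      (fun i hi => by
        have := one_div_neg.2 (hcneg i hi)
        simp only [hc]; linarith)
      (fun i hi => by
        rw [compl_compl] at hi
        have := one_div_pos.2 (hcpos i hi)
        simp only [hc]; linarith)
      hneg0 (by rw [hnegS]; exact hSN) (by simpa only [neg_sq] using hsmall)
    rw [hnegS] at t2
    rw [Phi_neg] at t3 t4
    refine ⟨-t, ?_, by linarith, t3, fun h => ⟨Lᶜ, hr4, by rw [compl_compl]; exact hl3,
      Or.inr (t4 h)⟩⟩
    have h1 : (1 : ℝ) ≤ L.card := by exact_mod_cast hlpos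
    nlinarith
  · exfalso
    apply hbig
    rw [← hAB]
    exact unbalanced hcc hl4 hl3 hlpos hrpos hSN hA hB

end Pool.Agent.H114.Tur
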