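import Pool.Agent.H114.Tur.Cert

/-!
The polynomial `(1 + X) ^ (m + 1) (1 - X) ^ m`, `m = j + 3`, and the norm of its second derivative.
-/

set_option autoImplicit false
set_option linter.unusedSimpArgs false

namespace Pool.Agent.H114.Tur

open Polynomial Set

/-- the maximum of `|P|` on `[-1, 1]` -/
noncomputable def nrm (P : ℝ[X]) : ℝ := sSup ((fun x => |P.eval x|) '' Icc (-1) 1)

lemma nrm_spec (P : ℝ[X]) : (∃ x ∈ Icc (-1 : ℝ) 1, |P.eval x| = nrm P) ∧
    ∀ x ∈ Icc (-1 : ℝ) 1, |P.eval x| ≤ nrm P := by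
  obtain ⟨x, hx, hmax⟩ := (isCompact_Icc (a := (-1 : ℝ)) (b := 1)).exists_isMaxOn
    (nonempty_Icc.2 (by norm_num)) (f := fun x => |P.eval x|) (by fun_prop)
  have hb : ∀ y ∈ Icc (-1 : ℝ) 1, |P.eval y| ≤ |P.eval x| := fun y hy => hmax hy
  have hB : IsGreatest ((fun x => |P.eval x|) '' Icc (-1 : ℝ) 1) |P.eval x| :=
    ⟨⟨x, hx, rfl⟩, by rintro _ ⟨y, hy, rfl⟩; exact hb y hy⟩
  have e : nrm P = |P.eval x| := hB.csSup_eq
  exact ⟨⟨x, hx, e.symm⟩, fun y hy => by rw [e]; exact hb y hy⟩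

lemma nrm_eq {P : ℝ[X]} {x : ℝ} (hx : x ∈ Icc (-1 : ℝ) 1)
    (h : ∀ y ∈ Icc (-1 : ℝ) 1, |P.eval y| ≤ |P.eval x|) : nrm P = |P.eval x| := by
  have hB : IsGreatest ((fun x => |P.eval x|) '' Icc (-1 : ℝ) 1) |P.eval x| :=
    ⟨⟨x, hx, rfl⟩, by rintro _ ⟨y, hy, rfl⟩; exact h y hy⟩
  exact hB.csSup_eq

/-- the polynomial -/
noncomputable def Q (j : ℕ) : ℝ[X] := (1 + X) ^ (j + 4) * (1 - X) ^ (j + 3)

/-- the degree as a real number -/
noncomputable def N (j : ℕ) : ℝ := 2 * j + 7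

lemma N_ge (j : ℕ) : 7 ≤ N j := by unfold N; have : (0 : ℝ) ≤ j := Nat.cast_nonneg j; linarith

lemma dQ (j : ℕ) : derivative (Q j) =
    (1 + X) ^ (j + 3) * (1 - X) ^ (j + 2) * (1 - C (N j) * X) := by
  unfold Q N
  simp only [derivative_mul, derivative_pow, derivative_add, derivative_sub, derivative_one,
    derivative_X, map_add, map_mul, map_natCast, map_ofNat]
  push_cast
  ring

lemma d2Q (j : ℕ) : derivative (derivative (Q j)) =
    C (N j - 1) * ((1 + X) ^ (j + 2) * (1 - X) ^ (j + 1) * (C (N j) * X ^ 2 - 2 * X - 1)) := by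
  rw [dQ]
  unfold N
  simp only [derivative_mul, derivative_pow, derivative_add, derivative_sub, derivative_one,
    derivative_X, map_add, map_sub, map_mul, map_natCast, map_ofNat, map_one,
    derivative_natCast, derivative_ofNat]
  push_cast
  ring

lemma d3Q (j : ℕ) : derivative (derivative (derivative (Q j))) =
    -C (N j - 1) * ((1 + X) ^ (j + 1) * (1 - X) ^ j * (C (N j * (N j - 2)) * X ^ 3
      - C (3 * (N j - 2)) * X ^ 2 - C (3 * (N j - 2)) * X + 3)) := by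
  rw [d2Q]
  unfold N
  simp only [derivative_mul, derivative_pow, derivative_add, derivative_sub, derivative_one,
    derivative_X, map_add, map_sub, map_mul, map_natCast, map_ofNat, map_one,
    derivative_natCast, derivative_ofNat]
  push_cast
  ring

lemma Q_eval (j : ℕ) (x : ℝ) : (Q j).eval x = (1 + x) ^ (j + 4) * (1 - x) ^ (j + 3) := by
  simp [Q]

lemma d2Q_eval (j : ℕ) (x : ℝ) : (derivative (derivative (Q j))).eval x =
    (N j - 1) * ((1 + x) ^ (j + 2) * (1 - x) ^ (j + 1) * (N j * x ^ 2 - 2 * x - 1)) := by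
  rw [d2Q]; simp

lemma d3Q_eval (j : ℕ) (x : ℝ) : (derivative (derivative (derivative (Q j)))).eval x =
    -(N j - 1) * ((1 + x) ^ (j + 1) * (1 - x) ^ j * (N j * (N j - 2) * x ^ 3
      - 3 * (N j - 2) * x ^ 2 - 3 * (N j - 2) * x + 3)) := by
  rw [d3Q]; simp

end Pool.Agent.H114.Tur
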