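import Pool.Agent.H114.Tur.Norm

/-!
The norm of the second derivative of `(1 + X) ^ (m + 1) (1 - X) ^ m`, `m = j + 3`.
-/

set_option autoImplicit false

namespace Pool.Agent.H114.Tur

open Polynomial Set

/-- the value at the maximum -/
noncomputable def q0 (j : ℕ) : ℝ := (Q j).eval (1 / N j)

lemma q0_eq (j : ℕ) : q0 j = (1 + 1 / N j) ^ (j + 4) * (1 - 1 / N j) ^ (j + 3) := Q_eval j _

lemma inv_N (j : ℕ) : 0 < 1 / N j ∧ 1 / N j ≤ 1 / 7 := by
  have := N_ge j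
  exact ⟨by positivity, one_div_le_one_div_of_le (by norm_num) this⟩

/-- the polynomial relative to its value at `1 / N` -/
lemma Q_shift (j : ℕ) (t : ℝ) : (Q j).eval (1 / N j + t) = q0 j *
    ((1 + N j / (2 * (j + 4)) * t) ^ (j + 4) * (1 - N j / (2 * (j + 3)) * t) ^ (j + 3)) := by
  have h7 := N_ge j
  have hj : (0 : ℝ) ≤ j := Nat.cast_nonneg j
  rw [Q_eval, q0_eq]
  have e1 : 1 + (1 / N j + t) = (1 + 1 / N j) * (1 + N j / (2 * (j + 4)) * t) := by
    have : N j = 2 * j + 7 := rfl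
    have hN : N j ≠ 0 := by linarith
    have h4 : ((j : ℝ) + 4) ≠ 0 := by positivity
    field_simp
    rw [this]; ring
  have e2 : 1 - (1 / N j + t) = (1 - 1 / N j) * (1 - N j / (2 * (j + 3)) * t) := by
    have : N j = 2 * j + 7 := rfl
    have hN : N j ≠ 0 := by linarith
    have h4 : ((j : ℝ) + 3) ≠ 0 := by positivity
    field_simp
    rw [this]; ring
  rw [e1, e2, mul_pow, mul_pow]; ring

lemma q0_pos (j : ℕ) : 0 < q0 j := by
  obtain ⟨h1, h2⟩ := inv_N j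
  rw [q0_eq]
  have : 0 < 1 - 1 / N j := by linarith
  positivity

lemma Q_le (j : ℕ) {x : ℝ} (h1 : -1 ≤ x) (h2 : x ≤ 1) : (Q j).eval x ≤ q0 j := by
  obtain ⟨i1, i2⟩ := inv_N j
  have h7 := N_ge j
  have hj : (0 : ℝ) ≤ j := Nat.cast_nonneg j
  obtain ⟨t, rfl⟩ : ∃ t, x = 1 / N j + t := ⟨x - 1 / N j, by ring⟩
  rw [Q_shift]
  have hN : N j = 2 * j + 7 := rfl
  have e1 : (1 + (1 / N j + t)) = (1 + 1 / N j) * (1 + N j / (2 * (j + 4)) * t) := by
    have hN' : N j ≠ 0 := by linarith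
    have h4 : ((j : ℝ) + 4) ≠ 0 := by positivity
    field_simp
    rw [hN]; ring
  have e2 : 1 - (1 / N j + t) = (1 - 1 / N j) * (1 - N j / (2 * (j + 3)) * t) := by
    have hN' : N j ≠ 0 := by linarith
    have h4 : ((j : ℝ) + 3) ≠ 0 := by positivity
    field_simp
    rw [hN]; ring
  have p1 : 0 ≤ 1 + N j / (2 * (j + 4)) * t := by
    by_contra hcon
    push Not at hcon
    have : (1 + 1 / N j) * (1 + N j / (2 * (j + 4)) * t) < 0 :=
      mul_neg_of_pos_of_neg (by linarith) hcon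
    linarith
  have p2 : 0 ≤ 1 - N j / (2 * (j + 3)) * t := by
    by_contra hcon
    push Not at hcon
    have : (1 - 1 / N j) * (1 - N j / (2 * (j + 3)) * t) < 0 :=
      mul_neg_of_pos_of_neg (by linarith) hcon
    linarith
  have a1 : (1 + N j / (2 * (j + 4)) * t) ^ (j + 4) ≤ Real.exp (N j / 2 * t) := by
    have h3 : 1 + N j / (2 * (j + 4)) * t ≤ Real.exp (N j / (2 * (j + 4)) * t) := by
      linarith [Real.add_one_le_exp (N j / (2 * (j + 4)) * t)]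
    calc (1 + N j / (2 * (j + 4)) * t) ^ (j + 4)
        ≤ Real.exp (N j / (2 * (j + 4)) * t) ^ (j + 4) := pow_le_pow_left₀ p1 h3 _
      _ = Real.exp (N j / 2 * t) := by
          rw [← Real.exp_nat_mul]
          congr 1
          push_cast
          field_simp
  have a2 : (1 - N j / (2 * (j + 3)) * t) ^ (j + 3) ≤ Real.exp (-(N j / 2 * t)) := by
    have h3 : 1 - N j / (2 * (j + 3)) * t ≤ Real.exp (-(N j / (2 * (j + 3)) * t)) := by
      linarith [Real.add_one_le_exp (-(N j / (2 * (j + 3)) * t))]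
    calc (1 - N j / (2 * (j + 3)) * t) ^ (j + 3)
        ≤ Real.exp (-(N j / (2 * (j + 3)) * t)) ^ (j + 3) := pow_le_pow_left₀ p2 h3 _
      _ = Real.exp (-(N j / 2 * t)) := by
          rw [← Real.exp_nat_mul]
          congr 1
          push_cast
          field_simp
  have a3 : (1 + N j / (2 * (j + 4)) * t) ^ (j + 4) * (1 - N j / (2 * (j + 3)) * t) ^ (j + 3) ≤ 1 := by
    calc _ ≤ Real.exp (N j / 2 * t) * Real.exp (-(N j / 2 * t)) :=
          mul_le_mul a1 a2 (by positivity) (Real.exp_pos _).le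
      _ = 1 := by rw [← Real.exp_add, add_neg_cancel, Real.exp_zero]
  have := q0_pos j
  nlinarith

lemma one_le_q0 (j : ℕ) : 1 ≤ q0 j := by
  have := Q_le j (x := 0) (by norm_num) (by norm_num)
  rw [Q_eval] at this
  simpa using this

lemma nrm_Q (j : ℕ) : nrm (Q j) = q0 j := by
  obtain ⟨i1, i2⟩ := inv_N j
  have h : nrm (Q j) = |(Q j).eval (1 / N j)| := by
    refine nrm_eq ⟨by linarith, by linarith⟩ fun y hy => ?_
    have h1 : 0 ≤ (Q j).eval y := by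
      rw [Q_eval]
      have : 0 ≤ 1 + y := by linarith [hy.1]
      have : 0 ≤ 1 - y := by linarith [hy.2]
      positivity
    rw [abs_of_nonneg h1]
    exact le_trans (Q_le j hy.1 hy.2) (le_abs_self _)
  rw [h]
  exact abs_of_pos (q0_pos j)

/-! ### outer region -/

lemma outer_exp {x w : ℝ} (h0 : 0 ≤ x) (h1 : x ≤ 1) (hw : 0 ≤ w) :
    (1 + x) * (1 - x ^ 2) ^ 2 * (2 * w + 9 * x ^ 2 - 2 * x - 1) ≤ Real.exp w := by
  have hE := E_pos x h0 h1
  have he := Real.quadratic_le_exp_of_nonneg hw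
  have hs := sq_nonneg (w + (1 - 2 * ((1 + x) * (1 - x ^ 2) ^ 2)))
  nlinarith [hE, he, hs]

lemma outer_neg {s v : ℝ} (h0 : 0 ≤ s) (h1 : s ≤ 1) (hv : 0 ≤ v) :
    (1 - s) * (2 * v + 5 * s ^ 2 + 2 * s - 1) ≤ Real.exp v := by
  have he := Real.quadratic_le_exp_of_nonneg hv
  have h3 : 0 ≤ 3 / 2 - s - 5 * s ^ 2 + 5 * s ^ 3 := by
    nlinarith [mul_nonneg h0 (sq_nonneg (s - 3 / 4)), sq_nonneg (s - 3 / 4)]
  nlinarith [sq_nonneg (v + (2 * s - 1))]

lemma pow_le_exp {u : ℝ} (hu : u ≤ 1) (i : ℕ) : (1 - u) ^ i ≤ Real.exp (-(i * u)) := by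
  have h3 : 1 - u ≤ Real.exp (-u) := by linarith [Real.add_one_le_exp (-u)]
  calc (1 - u) ^ i ≤ Real.exp (-u) ^ i := pow_le_pow_left₀ (by linarith) h3 _
    _ = Real.exp (-(i * u)) := by rw [← Real.exp_nat_mul]; congr 1; ring

/-- outer region -/
lemma outer (j : ℕ) {x : ℝ} (h1 : -1 ≤ x) (h2 : x ≤ 1) :
    (1 + x) ^ (j + 2) * (1 - x) ^ (j + 1) * (N j * x ^ 2 - 2 * x - 1) ≤ 1 ∨
    (j = 0 ∧ (1 + x) ^ (j + 2) * (1 - x) ^ (j + 1) * (N j * x ^ 2 - 2 * x - 1) ≤ 5 / 4) := by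
  have hN : N j = 2 * j + 7 := rfl
  have hx2 : x ^ 2 ≤ 1 := by nlinarith
  have hp : (1 + x) ^ (j + 2) * (1 - x) ^ (j + 1) = (1 + x) * (1 - x ^ 2) ^ (j + 1) := by
    rw [show (1 - x ^ 2) = (1 + x) * (1 - x) by ring, mul_pow]; ring
  rw [hp]
  rcases le_total x 0 with hx | hx
  · left
    obtain ⟨s, rfl⟩ : ∃ s, x = -s := ⟨-x, by ring⟩
    have hs0 : 0 ≤ s := by linarith
    have hs1 : s ≤ 1 := by linarith
    have hv : (0 : ℝ) ≤ ((j + 1 : ℕ) : ℝ) * s ^ 2 := by positivity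
    have h3 := outer_neg hs0 hs1 hv
    have h4 := pow_le_exp (u := s ^ 2) (by nlinarith) (j + 1)
    have h5 : 0 ≤ (1 - s ^ 2) ^ (j + 1) := pow_nonneg (by nlinarith) _
    set v := ((j + 1 : ℕ) : ℝ) * s ^ 2 with hvdef
    have e1 : (1 + -s) * (1 - (-s) ^ 2) ^ (j + 1) * (N j * (-s) ^ 2 - 2 * (-s) - 1) =
        (1 - s ^ 2) ^ (j + 1) * ((1 - s) * (2 * v + 5 * s ^ 2 + 2 * s - 1)) := by
      rw [hvdef, hN, neg_sq]; push_cast; ring
    rw [e1]
    calc (1 - s ^ 2) ^ (j + 1) * ((1 - s) * (2 * v + 5 * s ^ 2 + 2 * s - 1))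
        ≤ (1 - s ^ 2) ^ (j + 1) * Real.exp v := mul_le_mul_of_nonneg_left h3 h5
      _ ≤ Real.exp (-v) * Real.exp v := mul_le_mul_of_nonneg_right h4 (Real.exp_pos _).le
      _ = 1 := by rw [← Real.exp_add, neg_add_cancel, Real.exp_zero]
  · rcases Nat.eq_zero_or_pos j with hj | hj
    · right
      refine ⟨hj, ?_⟩
      subst hj
      have h3 := T_pos x hx h2
      rw [hN]
      push_cast
      nlinarith [h3]
    · left
      obtain ⟨i, rfl⟩ : ∃ i, j = i + 1 := ⟨j - 1, by omega⟩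
      have hv : (0 : ℝ) ≤ (i : ℝ) * x ^ 2 := by positivity
      have h3 := outer_exp hx h2 hv
      have h4 := pow_le_exp (u := x ^ 2) hx2 i
      have h5 : 0 ≤ (1 - x ^ 2) ^ i := pow_nonneg (by linarith) _
      set v := (i : ℝ) * x ^ 2 with hvdef
      have e1 : (1 + x) * (1 - x ^ 2) ^ (i + 1 + 1) * (N (i + 1) * x ^ 2 - 2 * x - 1) =
          (1 - x ^ 2) ^ i * ((1 + x) * (1 - x ^ 2) ^ 2 * (2 * v + 9 * x ^ 2 - 2 * x - 1)) := by
        rw [hvdef, hN]; push_cast; ring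
      rw [e1]
      calc (1 - x ^ 2) ^ i * ((1 + x) * (1 - x ^ 2) ^ 2 * (2 * v + 9 * x ^ 2 - 2 * x - 1))
          ≤ (1 - x ^ 2) ^ i * Real.exp v := mul_le_mul_of_nonneg_left h3 h5
        _ ≤ Real.exp (-v) * Real.exp v := mul_le_mul_of_nonneg_right h4 (Real.exp_pos _).le
        _ = 1 := by rw [← Real.exp_add, neg_add_cancel, Real.exp_zero]

end Pool.Agent.H114.Tur
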