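import Pool.Agent.H114.Tur.Norm2

/-!
The norm of the second derivative of `(1 + X) ^ (m + 1) (1 - X) ^ m`, `m = j + 3`: the point where it
is attained.
-/

set_option autoImplicit false

namespace Pool.Agent.H114.Tur

open Polynomial Set

/-- the second derivative at `1 / N` -/
lemma d2Q_x0 (j : ℕ) : (derivative (derivative (Q j))).eval (1 / N j) =
    -(q0 j * (N j ^ 3 / (N j ^ 2 - 1))) := by
  have h7 := N_ge j
  have hN : N j ≠ 0 := by linarith
  have h1 : N j ^ 2 - 1 ≠ 0 := by nlinarith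
  rw [d2Q_eval, q0_eq]
  have e1 : (1 + 1 / N j) ^ (j + 4) * (1 - 1 / N j) ^ (j + 3) =
      ((1 + 1 / N j) ^ (j + 2) * (1 - 1 / N j) ^ (j + 1)) * ((1 + 1 / N j) * (1 - 1 / N j)) ^ 2 := by
    ring
  rw [e1]
  set P := (1 + 1 / N j) ^ (j + 2) * (1 - 1 / N j) ^ (j + 1)
  field_simp
  ring

lemma central_poly {n : ℝ} (hn : 7 ≤ n) (x : ℝ) :
    (n - 1) * (n ^ 2 - 9) * (1 + 2 * x - n * x ^ 2) < n ^ 3 * (1 - x ^ 2) ^ 2 := by
  obtain ⟨y, hy, rfl⟩ : ∃ y, 0 ≤ y ∧ n = 7 + y := ⟨n - 7, by linarith, by ring⟩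
  set n := 7 + y with hndef
  have ha0 : 0 < n ^ 2 + 9 * n - 9 := by nlinarith
  have hd : 0 < (n ^ 2 + 9 * n - 9) * (n ^ 4 - 3 * n ^ 3 - 9 * n ^ 2 + 9 * n) -
      ((n - 1) * (n ^ 2 - 9)) ^ 2 := by
    have : (n ^ 2 + 9 * n - 9) * (n ^ 4 - 3 * n ^ 3 - 9 * n ^ 2 + 9 * n) -
      ((n - 1) * (n ^ 2 - 9)) ^ 2 = 44782 + 47184 * y + 17606 * y ^ 2 + 3055 * y ^ 3 + 252 * y ^ 4 + 8 * y ^ 5 := by
      rw [hndef]; ring
    rw [this]; positivity
  have hq : 0 < (n ^ 2 + 9 * n - 9) * (n ^ 2 + 9 * n - 9 - 2 * ((n - 1) * (n ^ 2 - 9)) * x +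
      (n ^ 4 - 3 * n ^ 3 - 9 * n ^ 2 + 9 * n) * x ^ 2) := by
    have e : (n ^ 2 + 9 * n - 9) * (n ^ 2 + 9 * n - 9 - 2 * ((n - 1) * (n ^ 2 - 9)) * x +
      (n ^ 4 - 3 * n ^ 3 - 9 * n ^ 2 + 9 * n) * x ^ 2) =
      (n ^ 2 + 9 * n - 9 - ((n - 1) * (n ^ 2 - 9)) * x) ^ 2 +
      ((n ^ 2 + 9 * n - 9) * (n ^ 4 - 3 * n ^ 3 - 9 * n ^ 2 + 9 * n) -
        ((n - 1) * (n ^ 2 - 9)) ^ 2) * x ^ 2 := by ring
    rw [e]
    rcases eq_or_ne x 0 with h0 | h0
    · subst h0
      have : 0 < (n ^ 2 + 9 * n - 9) ^ 2 := by positivity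
      nlinarith
    · have : 0 < x ^ 2 := by positivity
      positivity
  have hq' := (mul_pos_iff_of_pos_left ha0).1 hq
  have h3 : 0 ≤ n ^ 3 * x ^ 4 := by positivity
  nlinarith [hq', h3]

/-- the cubic -/
noncomputable def Kc (n x : ℝ) : ℝ :=
  n * (n - 2) * x ^ 3 - 3 * (n - 2) * x ^ 2 - 3 * (n - 2) * x + 3

lemma location {n x : ℝ} (hn : 7 ≤ n) (hK : Kc n x = 0) (hq : n * x ^ 2 - 2 * x - 1 < 0) :
    1 / n < x ∧ x < 1 / (n - 2) := by
  have hn0 : 0 < n := by linarith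
  have hn2 : 0 < n - 2 := by linarith
  have hK' : (n - 2) * x * (3 + 3 * x - n * x ^ 2) = 3 := by unfold Kc at hK; linarith
  have hx1 : -1 < x := by nlinarith
  have h2 : 2 + x < 3 + 3 * x - n * x ^ 2 := by linarith
  constructor
  · by_contra hcon
    push Not at hcon
    have hnx : n * x ≤ 1 := by
      rw [le_div_iff₀ hn0] at hcon; linarith
    rcases le_total x 0 with h0 | h0
    · have : (n - 2) * x * (3 + 3 * x - n * x ^ 2) ≤ 0 :=
        mul_nonpos_of_nonpos_of_nonneg (mul_nonpos_of_nonneg_of_nonpos hn2.le h0) (by linarith)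
      linarith
    · -- `0 ≤ x ≤ 1 / n`
      have h5 : n * (3 + 3 * x - n * x ^ 2) ≤ 3 * n + 2 := by
        nlinarith [mul_nonneg (sub_nonneg.2 hnx) (show (0 : ℝ) ≤ 2 - n * x by linarith)]
      have h6 : (n - 2) * x * (n * (3 + 3 * x - n * x ^ 2)) = 3 * n := by
        linear_combination n * hK'
      have h7 : (n - 2) * x * n ≤ n - 2 := by nlinarith
      have h8 : (n - 2) * x * (n * (3 + 3 * x - n * x ^ 2)) ≤ (n - 2) * x * (3 * n + 2) :=
        mul_le_mul_of_nonneg_left h5 (mul_nonneg hn2.le h0)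
      have h9 : n * ((n - 2) * x * (3 * n + 2)) ≤ (n - 2) * (3 * n + 2) := by nlinarith
      nlinarith
  · by_contra hcon
    push Not at hcon
    have hnx : 1 ≤ (n - 2) * x := by
      rw [div_le_iff₀ hn2] at hcon; linarith
    have hx0 : 0 < x := by
      by_contra hc
      push Not at hc
      nlinarith
    rcases lt_or_ge (n * x) 3 with h3 | h3
    · have h5 : 3 < 3 + 3 * x - n * x ^ 2 := by nlinarith
      nlinarith
    · have h5 : 15 / 7 ≤ (n - 2) * x := by nlinarith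
      nlinarith

/-- **The norm of the second derivative.** -/
theorem nrm_d2Q (j : ℕ) : ∃ x : ℝ, 1 / N j < x ∧ x < 1 / (N j - 2) ∧ Kc (N j) x = 0 ∧
    (derivative (derivative (Q j))).eval x = -nrm (derivative (derivative (Q j))) ∧
    nrm (derivative (derivative (Q j))) < q0 j * (N j ^ 3 / (N j ^ 2 - 9)) ∧
    0 < nrm (derivative (derivative (Q j))) := by
  have h7 := N_ge j
  obtain ⟨i1, i2⟩ := inv_N j
  have hq0 := q0_pos j
  have hq1 := one_le_q0 j
  obtain ⟨⟨x, hx, hxe⟩, hmax⟩ := nrm_spec (derivative (derivative (Q j)))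
  have hn0 : 0 < N j := by linarith
  have hN1 : 0 < N j ^ 2 - 1 := by nlinarith
  have hN9 : 0 < N j ^ 2 - 9 := by nlinarith
  -- a lower bound
  have hlow : q0 j * (N j ^ 3 / (N j ^ 2 - 1)) ≤ nrm (derivative (derivative (Q j))) := by
    have h := hmax (1 / N j) ⟨by linarith, by linarith⟩
    rw [d2Q_x0, abs_neg, abs_of_pos (by positivity)] at h
    exact h
  have hNN : N j < N j ^ 3 / (N j ^ 2 - 1) := by
    rw [lt_div_iff₀ hN1]; nlinarith
  -- `x` is not in the outer region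
  have hcen : N j * x ^ 2 - 2 * x - 1 < 0 := by
    by_contra hcon
    push Not at hcon
    have h1 : 0 ≤ 1 + x := by linarith [hx.1]
    have h2 : 0 ≤ 1 - x := by linarith [hx.2]
    rw [d2Q_eval, abs_of_nonneg (by
      have : 0 ≤ N j - 1 := by linarith
      positivity)] at hxe
    rcases outer j hx.1 hx.2 with h3 | ⟨hj, h3⟩
    · have h4 : (N j - 1) * ((1 + x) ^ (j + 2) * (1 - x) ^ (j + 1) * (N j * x ^ 2 - 2 * x - 1)) ≤
          (N j - 1) * 1 := mul_le_mul_of_nonneg_left h3 (by linarith)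
      nlinarith
    · subst hj
      have hN : N 0 = 7 := by unfold N; norm_num
      have hq : q0 0 = (8 / 7) ^ 4 * (6 / 7) ^ 3 := by rw [q0_eq, hN]; norm_num
      rw [hq, hN] at hlow
      rw [hN] at h3 hxe
      norm_num at hlow h3 hxe
      linarith
  have hx1 : x < 1 := by
    rcases lt_or_eq_of_le hx.2 with h | h
    · exact h
    · rw [h] at hcen; nlinarith
  have hx2 : -1 < x := by
    rcases lt_or_eq_of_le hx.1 with h | h
    · exact h
    · rw [← h] at hcen; nlinarith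
  have hP : 0 < (1 + x) ^ (j + 2) * (1 - x) ^ (j + 1) := by
    have : 0 < 1 + x := by linarith
    have : 0 < 1 - x := by linarith
    positivity
  have hneg : (derivative (derivative (Q j))).eval x < 0 := by
    rw [d2Q_eval]
    have h3 := mul_neg_of_pos_of_neg hP hcen
    exact mul_neg_of_pos_of_neg (by linarith) h3
  have hval : (derivative (derivative (Q j))).eval x = -nrm (derivative (derivative (Q j))) := by
    rw [← hxe, abs_of_neg hneg, neg_neg]
  have hpos : 0 < nrm (derivative (derivative (Q j))) := by linarith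
  -- critical point
  have hcrit : (derivative (derivative (derivative (Q j)))).eval x = 0 := by
    have hmin : IsLocalMin (fun y => (derivative (derivative (Q j))).eval y) x := by
      filter_upwards [Ioo_mem_nhds hx2 hx1] with y hy
      rw [hval]
      have := hmax y ⟨hy.1.le, hy.2.le⟩
      linarith [neg_abs_le ((derivative (derivative (Q j))).eval y)]
    have := hmin.hasDerivAt_eq_zero ((derivative (derivative (Q j))).hasDerivAt x)
    exact this
  have hK : Kc (N j) x = 0 := by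
    rw [d3Q_eval] at hcrit
    have h3 : 0 < (1 + x) ^ (j + 1) * (1 - x) ^ j := by
      have : 0 < 1 + x := by linarith
      have : 0 < 1 - x := by linarith
      positivity
    have h4 : -(N j - 1) ≠ 0 := by
      have : N j - 1 > 0 := by linarith
      linarith
    rcases mul_eq_zero.1 hcrit with h | h
    · exact absurd h h4
    · rcases mul_eq_zero.1 h with h | h
      · exact absurd h h3.ne'
      · exact h
  obtain ⟨l1, l2⟩ := location h7 hK hcen
  refine ⟨x, l1, l2, hK, hval, ?_, hpos⟩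
  -- the upper bound
  have h3 := central_poly h7 x
  have h4 := Q_le j hx.1 hx.2
  rw [Q_eval] at h4
  have e1 : (1 + x) ^ (j + 4) * (1 - x) ^ (j + 3) =
      ((1 + x) ^ (j + 2) * (1 - x) ^ (j + 1)) * (1 - x ^ 2) ^ 2 := by ring
  rw [e1] at h4
  rw [d2Q_eval] at hval
  have h5 : nrm (derivative (derivative (Q j))) =
      (N j - 1) * ((1 + x) ^ (j + 2) * (1 - x) ^ (j + 1) * (1 + 2 * x - N j * x ^ 2)) := by
    linarith
  rw [h5, ← mul_div_assoc, lt_div_iff₀ hN9]
  set P := (1 + x) ^ (j + 2) * (1 - x) ^ (j + 1)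
  have h6 : P * ((N j - 1) * (N j ^ 2 - 9) * (1 + 2 * x - N j * x ^ 2)) <
      P * (N j ^ 3 * (1 - x ^ 2) ^ 2) := mul_lt_mul_of_pos_left h3 hP
  have h7' : (P * (1 - x ^ 2) ^ 2) * N j ^ 3 ≤ q0 j * N j ^ 3 :=
    mul_le_mul_of_nonneg_right h4 (by positivity)
  nlinarith [h6, h7']

end Pool.Agent.H114.Tur
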